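import Pool.Agent.Lib_MP_ac8703_an.Radial

/-!
# A negative solution below the first weighted eigenvalue

In the unit disc of the plane, with `μ = 1` and explicit smooth data `c > 0` and `h`
(`h(x) = 24 - 144 |x|²` changes sign), problem `(P_0)` has the positive solution
`u₀ = 6 (1 - |x|²)`, while for `λ = 1`, which lies strictly between `0` and the first weighted
eigenvalue `γ₁`, problem `(P_λ)` has the solution `u = -(1 - |x|²)(3 + 4|x|² - 2|x|⁴)`, which is
negative in the whole disc.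

With `s = |x|²` the identity `c u = -Δu - |∇u|² + Δu₀ + |∇u₀|²` reads
`c = 4 (5 - 6 s - 48 s² + 108 s³ - 36 s⁴) / (3 + 4 s - 2 s²)`, and `1 < γ₁` follows from the positive
supersolution `ψ = 10 - 18 s + 17 s² - 8 s³`, which satisfies `-Δψ ≥ (21/20) c ψ`.
-/

open MeasureTheory Set Filter
open scoped ENNReal Topology ContDiff RealInnerProductSpace

namespace Pool.Agent.Results.MP_ac8703_an.NegativeSolution

open Pool.Agent.Results.MP_ac8703_an

/-! ### The data as functions of `s = |x|²` -/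

/-- numerator of `c / 4` -/
def T4 (s : ℝ) : ℝ := 5 - 6 * s - 48 * s ^ 2 + 108 * s ^ 3 - 36 * s ^ 4

/-- denominator -/
def qq (s : ℝ) : ℝ := 3 + 4 * s - 2 * s ^ 2

/-- the coefficient `c` as a function of `s` -/
noncomputable def cc (s : ℝ) : ℝ := 4 * T4 s / qq s

/-- supersolution -/
def psi (s : ℝ) : ℝ := 10 - 18 * s + 17 * s ^ 2 - 8 * s ^ 3

/-- its derivative -/
def psi' (s : ℝ) : ℝ := -18 + 34 * s - 24 * s ^ 2

/-- its second derivative -/
def psi'' (s : ℝ) : ℝ := 34 - 48 * s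

lemma T4_pos {s : ℝ} (h0 : 0 ≤ s) (h1 : s ≤ 1) : 0 < T4 s := by
  unfold T4
  rcases le_total s (1 / 2) with h | h
  · have hw : 0 ≤ 1 / 2 - s := by linarith
    have e : 5 - 6 * s - 48 * s ^ 2 + 108 * s ^ 3 - 36 * s ^ 4 =
      80 * (1 / 2 - s) ^ 4 + 272 * (s * (1 / 2 - s) ^ 3) + 144 * (s ^ 2 * (1 / 2 - s) ^ 2) +
      8 * (s ^ 3 * (1 / 2 - s)) + 20 * s ^ 4 := by ring
    rw [e]
    rcases h0.eq_or_lt with h2 | h2
    · rw [← h2]; norm_num
    · have : 0 < 20 * s ^ 4 := by positivity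
      have : 0 ≤ 80 * (1 / 2 - s) ^ 4 + 272 * (s * (1 / 2 - s) ^ 3) +
        144 * (s ^ 2 * (1 / 2 - s) ^ 2) + 8 * (s ^ 3 * (1 / 2 - s)) := by positivity
      linarith
  · have hw : 0 ≤ s - 1 / 2 := by linarith
    have hv : 0 ≤ 1 - s := by linarith
    have e : 5 - 6 * s - 48 * s ^ 2 + 108 * s ^ 3 - 36 * s ^ 4 =
      20 * (1 - s) ^ 4 + 152 * ((s - 1 / 2) * (1 - s) ^ 3) + 576 * ((s - 1 / 2) ^ 2 * (1 - s) ^ 2) +
      848 * ((s - 1 / 2) ^ 3 * (1 - s)) + 368 * (s - 1 / 2) ^ 4 := by ring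
    rw [e]
    rcases hv.eq_or_lt with h2 | h2
    · have : s = 1 := by linarith
      rw [this]; norm_num
    · have : 0 < 20 * (1 - s) ^ 4 := by positivity
      have : 0 ≤ 152 * ((s - 1 / 2) * (1 - s) ^ 3) + 576 * ((s - 1 / 2) ^ 2 * (1 - s) ^ 2) +
        848 * ((s - 1 / 2) ^ 3 * (1 - s)) + 368 * (s - 1 / 2) ^ 4 := by positivity
      linarith

lemma qq_pos {s : ℝ} (h0 : 0 ≤ s) (h1 : s ≤ 1) : 0 < qq s := by
  unfold qq; nlinarith

lemma cc_pos {s : ℝ} (h0 : 0 ≤ s) (h1 : s ≤ 1) : 0 < cc s :=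
  div_pos (mul_pos (by norm_num) (T4_pos h0 h1)) (qq_pos h0 h1)

lemma psi_pos {s : ℝ} (h0 : 0 ≤ s) (h1 : s ≤ 1) : 0 < psi s := by
  unfold psi
  have hv : 0 ≤ 1 - s := by linarith
  have e : 10 - 18 * s + 17 * s ^ 2 - 8 * s ^ 3 =
    10 * (1 - s) ^ 3 + 12 * (s * (1 - s) ^ 2) + 11 * (s ^ 2 * (1 - s)) + s ^ 3 := by ring
  rw [e]
  rcases h0.eq_or_lt with h2 | h2
  · rw [← h2]; norm_num
  · positivity

/-- The key polynomial inequality. -/
lemma key_ineq {s : ℝ} (h0 : 0 ≤ s) (h1 : s ≤ 1) :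
    21 / 20 * T4 s * psi s ≤ -(psi' s + s * psi'' s) * qq s := by
  have e : -(psi' s + s * psi'' s) * qq s - 21 / 20 * T4 s * psi s =
      3 / 2 + 51 / 2 * s + 4187 / 20 * s ^ 2 - 14681 / 10 * s ^ 3 + 15408 / 5 * s ^ 4 -
        15057 / 5 * s ^ 5 + 7749 / 5 * s ^ 6 - 1512 / 5 * s ^ 7 := by
    unfold T4 psi psi' psi'' qq; ring
  have hpos : 0 ≤ 3 / 2 + 51 / 2 * s + 4187 / 20 * s ^ 2 - 14681 / 10 * s ^ 3 + 15408 / 5 * s ^ 4 -
        15057 / 5 * s ^ 5 + 7749 / 5 * s ^ 6 - 1512 / 5 * s ^ 7 := by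
    rcases le_total s (1 / 2) with h | h
    · have hw : 0 ≤ 1 / 2 - s := by linarith
      have e2 : 3 / 2 + 51 / 2 * s + 4187 / 20 * s ^ 2 - 14681 / 10 * s ^ 3 + 15408 / 5 * s ^ 4 -
        15057 / 5 * s ^ 5 + 7749 / 5 * s ^ 6 - 1512 / 5 * s ^ 7 =
        192 * (1 / 2 - s) ^ 7 + 2976 * (s * (1 / 2 - s) ^ 6) +
        102616 / 5 * (s ^ 2 * (1 / 2 - s) ^ 5) + 206032 / 5 * (s ^ 3 * (1 / 2 - s) ^ 4) +
        185232 / 5 * (s ^ 4 * (1 / 2 - s) ^ 3) + 82396 / 5 * (s ^ 5 * (1 / 2 - s) ^ 2) +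
        18202 / 5 * (s ^ 6 * (1 / 2 - s)) + 438 * s ^ 7 := by ring
      rw [e2]; positivity
    · have hw : 0 ≤ s - 1 / 2 := by linarith
      have hv : 0 ≤ 1 - s := by linarith
      have e2 : 3 / 2 + 51 / 2 * s + 4187 / 20 * s ^ 2 - 14681 / 10 * s ^ 3 + 15408 / 5 * s ^ 4 -
        15057 / 5 * s ^ 5 + 7749 / 5 * s ^ 6 - 1512 / 5 * s ^ 7 =
        438 * (1 - s) ^ 7 + 12458 / 5 * ((s - 1 / 2) * (1 - s) ^ 6) +
        47932 / 5 * ((s - 1 / 2) ^ 2 * (1 - s) ^ 5) + 159808 / 5 * ((s - 1 / 2) ^ 3 * (1 - s) ^ 4) +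
        334096 / 5 * ((s - 1 / 2) ^ 4 * (1 - s) ^ 3) + 382888 / 5 * ((s - 1 / 2) ^ 5 * (1 - s) ^ 2) +
        227392 / 5 * ((s - 1 / 2) ^ 6 * (1 - s)) + 54944 / 5 * (s - 1 / 2) ^ 7 := by ring
      rw [e2]; positivity
  linarith

/-! ### The solutions -/

/-- `u₀ = 6 (1 - s)` and `u = -(1 - s) q(s)`, as radial solutions of the weak equation. -/
lemma isSolution_of_identity {q q' q'' : ℝ → ℝ} (hq : ContDiff ℝ ∞ q)
    (hq' : ∀ s, HasDerivAt q (q' s) s) (hq'' : ∀ s, HasDerivAt q' (q'' s) s)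
    (hq''c : Continuous q'') (lam : ℝ) {c h : E2 → ℝ}
    (hcm : MemLp c ∞ (volume.restrict disc)) (hhm : MemLp h ∞ (volume.restrict disc))
    (hid : ∀ x ∈ disc, -(4 * (-q (‖x‖ ^ 2) + (1 - ‖x‖ ^ 2) * q' (‖x‖ ^ 2)) +
        4 * ‖x‖ ^ 2 * (-2 * q' (‖x‖ ^ 2) + (1 - ‖x‖ ^ 2) * q'' (‖x‖ ^ 2))) =
      lam * c x * ((1 - ‖x‖ ^ 2) * q (‖x‖ ^ 2)) +
        4 * ‖x‖ ^ 2 * (-q (‖x‖ ^ 2) + (1 - ‖x‖ ^ 2) * q' (‖x‖ ^ 2)) ^ 2 + h x) :
    IsSolution disc lam c (fun _ => 1) h (rad fun s => (1 - s) * q s) := by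
  have hqc : Continuous q := hq.continuous
  have hq'c : Continuous q' := continuous_iff_continuousAt.2 fun s => (hq'' s).continuousAt
  set z : ℝ → ℝ := fun s => -q s + (1 - s) * q' s with hz
  set z' : ℝ → ℝ := fun s => -2 * q' s + (1 - s) * q'' s with hz'
  have hzd : ∀ s, HasDerivAt z (z' s) s := by
    intro s
    have h1 : HasDerivAt (fun s : ℝ => 1 - s) (-1) s := by
      simpa using (hasDerivAt_id s).const_sub 1
    have h2 := ((hq' s).neg).add (h1.mul (hq'' s))
    refine h2.congr_deriv ?_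
    simp only [hz']; ring
  have hz'c : Continuous z' := by simp only [hz']; fun_prop
  have hzc : Continuous z := by simp only [hz]; fun_prop
  set u : E2 → ℝ := rad fun s => (1 - s) * q s with hu
  have hum : MemLp u ∞ (volume.restrict disc) := memLp_rad (by fun_prop) _
  refine ⟨hum, radG z, memH10_rad hq hq' hq'c, fun v H hv hvb => ?_⟩
  rw [weak_radG hzd hz'c hv]
  have hv1 : Integrable v (volume.restrict disc) := hvb.integrable le_top
  have i1 : Integrable (fun x => lam * (c x * u x * v x)) (volume.restrict disc) := by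
    have h1 : MemLp (fun x => c x * u x) ∞ (volume.restrict disc) := hum.mul hcm
    have h2 : Integrable (fun x => c x * u x * v x) (volume.restrict disc) :=
      hv1.mul_of_top_right h1
    exact h2.const_mul lam
  have hG : MemLp (fun x => ‖radG z x‖ ^ 2) ∞ (volume.restrict disc) := by
    have hc2 : Continuous (fun s : ℝ => 4 * s * z s ^ 2) := by fun_prop
    have : (fun x => ‖radG z x‖ ^ 2) = rad (fun s => 4 * s * z s ^ 2) := by
      ext x
      simp only [radG, rad, norm_smul, Real.norm_eq_abs, mul_pow, sq_abs]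
      ring
    rw [this]
    exact memLp_rad hc2 _
  have i2 : Integrable (fun x => 1 * ‖radG z x‖ ^ 2 * v x) (volume.restrict disc) := by
    simp only [one_mul]
    exact hv1.mul_of_top_right hG
  have i3 : Integrable (fun x => h x * v x) (volume.restrict disc) :=
    hv1.mul_of_top_right hhm
  have e1 := integral_add (i1.add i2) i3
  have e2 := integral_add i1 i2
  have e3 : ∫ x in disc, (lam * (c x * u x * v x) + 1 * ‖radG z x‖ ^ 2 * v x + h x * v x) =
      lam * (∫ x in disc, c x * u x * v x) + (∫ x in disc, 1 * ‖radG z x‖ ^ 2 * v x) +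
        ∫ x in disc, h x * v x := by
    rw [← integral_const_mul, ← e2]
    exact e1
  rw [← e3]
  refine setIntegral_congr_fun measurableSet_ball fun x hx => ?_
  have h1 := hid x hx
  have h2 : ‖radG z x‖ ^ 2 = 4 * ‖x‖ ^ 2 * (z (‖x‖ ^ 2)) ^ 2 := by
    simp only [radG, norm_smul, Real.norm_eq_abs, mul_pow, sq_abs]
    ring
  rw [h2]
  have h3 : rad (fun s => -(4 * z s + 4 * s * z' s)) x =
      lam * c x * u x + 4 * ‖x‖ ^ 2 * (z (‖x‖ ^ 2)) ^ 2 + h x := by
    simp only [rad, hz, hz', hu]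
    exact h1
  rw [h3]; ring


/-- the coefficient `c` -/
noncomputable def cfun (x : E2) : ℝ := cc (‖x‖ ^ 2)

lemma cfun_measurable : Measurable cfun := by
  unfold cfun cc T4 qq
  fun_prop

lemma cfun_pos {x : E2} (hx : x ∈ disc) : 0 < cfun x :=
  cc_pos (normSq_mem_Icc hx).1 (normSq_mem_Icc hx).2

lemma cfun_continuousOn : ContinuousOn cfun (Metric.closedBall 0 1) := by
  unfold cfun cc
  refine ContinuousOn.div ?_ ?_ fun x hx => ?_
  · unfold T4; fun_prop
  · unfold qq; fun_prop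
  · have h1 : ‖x‖ ≤ 1 := by simpa using hx
    refine (qq_pos (by positivity) ?_).ne'
    nlinarith [norm_nonneg x]

lemma memLp_of_continuousOn {f : E2 → ℝ} (hf : ContinuousOn f (Metric.closedBall 0 1))
    (p : ℝ≥0∞) : MemLp f p (volume.restrict disc) := by
  obtain ⟨M, hM⟩ := (isCompact_closedBall (0 : E2) 1).exists_bound_of_continuousOn hf
  refine memLp_of_bound ((hf.mono Metric.ball_subset_closedBall).aestronglyMeasurable
    measurableSet_ball) M (fun x hx => hM x (Metric.ball_subset_closedBall hx)) p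

/-- Ground state inequality for test functions. -/
lemma energy_test {φ : E2 → ℝ} (hφ : IsTestFunction disc φ) :
    21 / 20 * ∫ x in disc, cfun x * φ x ^ 2 ≤ ∫ x in disc, ‖gradient φ x‖ ^ 2 := by
  set K := tsupport φ with hK
  have hKc : IsCompact K := hφ.compact
  have hKd : K ⊆ disc := hφ.support
  have hsm : ContDiff ℝ 1 φ := hφ.smooth.of_le (by exact_mod_cast le_top)
  have hφc : Continuous φ := hsm.continuous
  have hφ0 : ∀ x, x ∉ K → φ x = 0 := fun x hx => image_eq_zero_of_notMem_tsupport hx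
  have hg0 : ∀ x, x ∉ K → gradient φ x = 0 := fun x hx => gradient_eq_zero hx
  have hgc : Continuous (gradient φ) := continuous_gradient hsm
  have hgrad : ∀ x, HasGradientAt φ (gradient φ x) x := fun x =>
    ((hsm.differentiable (by simp)) x).hasGradientAt
  -- the field ζ = ψ'/ψ
  set ζ : ℝ → ℝ := fun s => psi' s / psi s with hζ
  set ζ' : ℝ → ℝ := fun s => (psi'' s * psi s - psi' s * psi' s) / psi s ^ 2 with hζ'
  have hpsid : ∀ s, HasDerivAt psi (psi' s) s := by
    intro s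
    have h : HasDerivAt (fun s : ℝ => 10 - 18 * s + 17 * s ^ 2 - 8 * s ^ 3)
        (0 - 18 * 1 + 17 * (2 * s ^ 1 * 1) - 8 * (3 * s ^ 2 * 1)) s := by
      have h1 := hasDerivAt_id s
      exact ((((hasDerivAt_const s (10 : ℝ)).sub (h1.const_mul 18)).add
        ((h1.pow 2).const_mul 17)).sub ((h1.pow 3).const_mul 8))
    refine h.congr_deriv ?_
    unfold psi'; ring
  have hpsi'd : ∀ s, HasDerivAt psi' (psi'' s) s := by
    intro s
    have h : HasDerivAt (fun s : ℝ => -18 + 34 * s - 24 * s ^ 2)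
        (0 + 34 * 1 - 24 * (2 * s ^ 1 * 1)) s := by
      have h1 := hasDerivAt_id s
      exact (((hasDerivAt_const s (-18 : ℝ)).add (h1.const_mul 34)).sub
        ((h1.pow 2).const_mul 24))
    refine h.congr_deriv ?_
    unfold psi''; ring
  have hζd : ∀ s ∈ Ico (0 : ℝ) 1, HasDerivAt ζ (ζ' s) s := fun s hs =>
    (hpsi'd s).div (hpsid s) (psi_pos hs.1 hs.2.le).ne'
  have hpc : Continuous psi := continuous_iff_continuousAt.2 fun s => (hpsid s).continuousAt
  have hp'c : Continuous psi' := continuous_iff_continuousAt.2 fun s => (hpsi'd s).continuousAt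
  have hp''c : Continuous psi'' := by unfold psi''; fun_prop
  have hζc : ContinuousOn ζ (Ico (0 : ℝ) 1) :=
    hp'c.continuousOn.div hpc.continuousOn fun s hs => (psi_pos hs.1 hs.2.le).ne'
  have hζ'c : ContinuousOn ζ' (Ico (0 : ℝ) 1) := by
    refine ContinuousOn.div (by fun_prop) (by fun_prop) fun s hs => ?_
    exact pow_ne_zero 2 (psi_pos hs.1 hs.2.le).ne'
  have hmaps : MapsTo (fun x : E2 => ‖x‖ ^ 2) K (Ico (0 : ℝ) 1) := fun x hx => normSq_mem (hKd hx)
  have hnsq : Continuous (fun x : E2 => ‖x‖ ^ 2) := by fun_prop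
  have hζK : ContinuousOn (fun x : E2 => ζ (‖x‖ ^ 2)) K := hζc.comp hnsq.continuousOn hmaps
  have hζ'K : ContinuousOn (fun x : E2 => ζ' (‖x‖ ^ 2)) K := hζ'c.comp hnsq.continuousOn hmaps
  have hradK : ContinuousOn (radG ζ) K := by
    unfold radG
    exact (continuousOn_const.mul hζK).smul continuousOn_id
  -- the square of φ
  set g : E2 → ℝ := fun x => φ x ^ 2 with hg
  have hgsm : ContDiff ℝ 1 g := hsm.pow 2
  have hgsupp : tsupport g ⊆ K := by
    refine closure_mono fun x hx => ?_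
    rw [Function.mem_support] at hx ⊢
    intro h0; apply hx; simp [hg, h0]
  have hgcomp : HasCompactSupport g := hKc.of_isClosed_subset (isClosed_tsupport _) hgsupp
  have hggrad : ∀ x, gradient g x = (2 * φ x) • gradient φ x := by
    intro x
    refine HasGradientAt.gradient ?_
    rw [hasGradientAt_iff_hasFDerivAt]
    have h := (hgrad x).hasFDerivAt.pow 2
    refine h.congr_fderiv ?_
    ext v
    simp
  have hibp := ibp_radG hζd hζ'c hgsm hgcomp (hgsupp.trans hKd)
  simp only [hggrad, inner_smul_right] at hibp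
  -- integrability
  have i1 : Integrable (fun x => ‖gradient φ x‖ ^ 2) :=
    integrable_of_compact_support' hKc (hgc.norm.pow 2).continuousOn
      (fun x hx => by simp [hg0 x hx])
  have i2 : Integrable (fun x => 2 * φ x * ⟪radG ζ x, gradient φ x⟫) :=
    integrable_of_compact_support' hKc
      ((continuousOn_const.mul hφc.continuousOn).mul (hradK.inner hgc.continuousOn))
      (fun x hx => by simp [hg0 x hx])
  have i3 : Integrable (fun x => φ x ^ 2 * ‖radG ζ x‖ ^ 2) :=
    integrable_of_compact_support' hKc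
      ((hφc.pow 2).continuousOn.mul (hradK.norm.pow 2))
      (fun x hx => by simp [hφ0 x hx])
  have i4 : Integrable (fun x : E2 => (4 * ζ (‖x‖ ^ 2) + 4 * ‖x‖ ^ 2 * ζ' (‖x‖ ^ 2)) * g x) := by
    refine integrable_of_compact_support' hKc ?_ (fun x hx => by simp [hg, hφ0 x hx])
    exact ((continuousOn_const.mul hζK).add (((continuousOn_const.mul hnsq.continuousOn)).mul
      hζ'K)).mul (hφc.pow 2).continuousOn
  have hcK : ContinuousOn cfun K :=
    cfun_continuousOn.mono (hKd.trans Metric.ball_subset_closedBall)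
  have i5 : Integrable (fun x => cfun x * φ x ^ 2) :=
    integrable_of_compact_support' hKc (hcK.mul (hφc.pow 2).continuousOn)
      (fun x hx => by simp [hφ0 x hx])
  -- nonnegativity of the square
  have hsq : 0 ≤ ∫ x, (‖gradient φ x‖ ^ 2 - 2 * φ x * ⟪radG ζ x, gradient φ x⟫ +
      φ x ^ 2 * ‖radG ζ x‖ ^ 2) := by
    refine integral_nonneg fun x => ?_
    have h1 : ‖gradient φ x - φ x • radG ζ x‖ ^ 2 = ‖gradient φ x‖ ^ 2 -
        2 * φ x * ⟪radG ζ x, gradient φ x⟫ + φ x ^ 2 * ‖radG ζ x‖ ^ 2 := by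
      rw [norm_sub_sq_real, inner_smul_right, real_inner_comm, norm_smul, mul_pow,
        Real.norm_eq_abs, sq_abs]
      ring
    simp only [Pi.zero_apply]
    rw [← h1]; positivity
  have hsplit : ∫ x, (‖gradient φ x‖ ^ 2 - 2 * φ x * ⟪radG ζ x, gradient φ x⟫ +
      φ x ^ 2 * ‖radG ζ x‖ ^ 2) = (∫ x, ‖gradient φ x‖ ^ 2) -
      (∫ x, 2 * φ x * ⟪radG ζ x, gradient φ x⟫) + ∫ x, φ x ^ 2 * ‖radG ζ x‖ ^ 2 := by
    have e1 := integral_add (i1.sub i2) i3
    have e2 := integral_sub i1 i2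
    rw [← e2]
    exact e1
  rw [hsplit, hibp, sub_neg_eq_add] at hsq
  -- comparison with c
  have hcomp : 21 / 20 * ∫ x, cfun x * φ x ^ 2 ≤
      -((∫ x : E2, (4 * ζ (‖x‖ ^ 2) + 4 * ‖x‖ ^ 2 * ζ' (‖x‖ ^ 2)) * g x) +
        ∫ x, φ x ^ 2 * ‖radG ζ x‖ ^ 2) := by
    rw [← integral_add i4 i3, ← integral_neg, ← integral_const_mul]
    refine integral_mono (i5.const_mul _) (i4.add i3).neg fun x => ?_
    simp only [hg]
    by_cases hx : x ∈ K
    · have hs := normSq_mem (hKd hx)
      have h2 : ‖radG ζ x‖ ^ 2 = 4 * ‖x‖ ^ 2 * (ζ (‖x‖ ^ 2)) ^ 2 := by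
        simp only [radG, norm_smul, Real.norm_eq_abs, mul_pow, sq_abs]
        ring
      rw [h2]
      unfold cfun
      set s := ‖x‖ ^ 2
      have hψ := psi_pos hs.1 hs.2.le
      have hq := qq_pos hs.1 hs.2.le
      have hkey := key_ineq hs.1 hs.2.le
      have h3 : 4 * ζ s + 4 * s * ζ' s + 4 * s * ζ s ^ 2 = 4 * (psi' s + s * psi'' s) / psi s := by
        simp only [hζ, hζ']
        field_simp
        ring
      have h4 : 21 / 20 * cc s ≤ -(4 * (psi' s + s * psi'' s) / psi s) := by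
        unfold cc
        rw [← neg_div, ← mul_div_assoc, div_le_div_iff₀ hq hψ]
        nlinarith
      have h5 : 0 ≤ φ x ^ 2 := sq_nonneg _
      calc 21 / 20 * (cc s * φ x ^ 2) = (21 / 20 * cc s) * φ x ^ 2 := by ring
        _ ≤ -(4 * (psi' s + s * psi'' s) / psi s) * φ x ^ 2 := mul_le_mul_of_nonneg_right h4 h5
        _ = -((4 * ζ s + 4 * s * ζ' s) * φ x ^ 2 + φ x ^ 2 * (4 * s * ζ s ^ 2)) := by
            rw [← h3]; ring
    · simp [hφ0 x hx]
  have hA : ∫ x in disc, cfun x * φ x ^ 2 = ∫ x, cfun x * φ x ^ 2 :=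
    setIntegral_eq_integral_of_forall_compl_eq_zero fun x hx => by
      rw [hφ0 x fun h => hx (hKd h)]; simp
  have hB : ∫ x in disc, ‖gradient φ x‖ ^ 2 = ∫ x, ‖gradient φ x‖ ^ 2 :=
    setIntegral_eq_integral_of_forall_compl_eq_zero fun x hx => by
      rw [hg0 x fun h => hx (hKd h)]; simp
  rw [hA, hB]
  linarith

/-- Ground state inequality on `H^1_0`. -/
lemma energy_H10 {v : E2 → ℝ} {H : E2 → E2} (hv : MemH10 disc v H) :
    21 / 20 * ∫ x in disc, cfun x * v x ^ 2 ≤ ∫ x in disc, ‖H x‖ ^ 2 := by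
  obtain ⟨φ, hφ, h1, h2⟩ := hv.approx
  have hgm : ∀ n, MemLp (gradient (φ n)) 2 (volume.restrict disc) := fun n =>
    memLp_grad_test (hφ n) 2
  have t1 : Tendsto (fun n => ∫ x in disc, ⟪gradient (φ n) x, gradient (φ n) x⟫) atTop
      (𝓝 (∫ x in disc, ⟪H x, H x⟫)) :=
    tendsto_integral_inner hgm hv.memLp_grad hgm hv.memLp_grad h2 h2
  have hcm : MemLp cfun ∞ (volume.restrict disc) := memLp_of_continuousOn cfun_continuousOn _
  obtain ⟨M, hM⟩ := (isCompact_closedBall (0 : E2) 1).exists_bound_of_continuousOn cfun_continuousOn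
  have hcφ : ∀ n, MemLp (fun x => cfun x * φ n x) 2 (volume.restrict disc) := fun n =>
    (memLp_test (hφ n) 2).mul hcm
  have hcv : MemLp (fun x => cfun x * v x) 2 (volume.restrict disc) := hv.memLp.mul hcm
  have h3 : Tendsto (fun n => eLpNorm ((fun x => cfun x * φ n x) - fun x => cfun x * v x) 2
      (volume.restrict disc)) atTop (𝓝 0) := by
    have h4 : Tendsto (fun n => ENNReal.ofReal M * eLpNorm (φ n - v) 2 (volume.restrict disc)) atTop
        (𝓝 0) := by
      have := ENNReal.Tendsto.const_mul h1 (Or.inr (ENNReal.ofReal_ne_top (r := M)))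
      simpa using this
    refine tendsto_of_tendsto_of_tendsto_of_le_of_le tendsto_const_nhds h4 (fun _ => zero_le)
      fun n => ?_
    refine eLpNorm_le_mul_eLpNorm_of_ae_le_mul ?_ 2
    refine ae_restrict_of_forall_mem measurableSet_ball fun x hx => ?_
    have : ((fun x => cfun x * φ n x) - fun x => cfun x * v x) x = cfun x * (φ n - v) x := by
      simp only [Pi.sub_apply]; ring
    rw [this, norm_mul]
    exact mul_le_mul_of_nonneg_right (hM x (Metric.ball_subset_closedBall hx)) (norm_nonneg _)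
  have t2 : Tendsto (fun n => ∫ x in disc, ⟪cfun x * φ n x, φ n x⟫) atTop
      (𝓝 (∫ x in disc, ⟪cfun x * v x, v x⟫)) :=
    tendsto_integral_inner hcφ hcv (fun n => memLp_test (hφ n) 2) hv.memLp h3 h1
  have e1 : ∀ w : E2 → ℝ, ∫ x in disc, ⟪cfun x * w x, w x⟫ = ∫ x in disc, cfun x * w x ^ 2 := by
    intro w
    refine integral_congr_ae (ae_of_all _ fun x => ?_)
    simp only [RCLike.inner_apply, conj_trivial]
    ring
  have e2 : ∀ w : E2 → E2, ∫ x in disc, ⟪w x, w x⟫ = ∫ x in disc, ‖w x‖ ^ 2 := by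
    intro w
    refine integral_congr_ae (ae_of_all _ fun x => ?_)
    simp only [real_inner_self_eq_norm_sq]
  simp_rw [e1] at t2
  simp_rw [e2] at t1
  exact le_of_tendsto_of_tendsto' (t2.const_mul _) t1 fun n => energy_test (hφ n)

/-- **A solution which is negative everywhere, for some `0 < λ < γ₁`.**
In the unit disc `disc` of `ℝ²` there are functions `c > 0` and `h`, continuous on the closed disc
(hence in every `L^p`), such that with `μ = 1`:
* `(P_0)` has a continuous solution `u₀` which is positive in the disc (so `u₀ ≥ 0`, `c u₀ ≩ 0`);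
* some `λ` with `0 < λ < γ₁` is such that `(P_λ)` has a continuous solution `u` which is negative at
  every point of the disc. -/
theorem result :
    ∃ c h u₀ u : EuclideanSpace ℝ (Fin 2) → ℝ,
      ContinuousOn c (Metric.closedBall 0 1) ∧ (∀ x ∈ Metric.ball 0 1, 0 < c x) ∧
      ContinuousOn h (Metric.closedBall 0 1) ∧
      Continuous u₀ ∧ IsSolution (Metric.ball 0 1) 0 c (fun _ => 1) h u₀ ∧
      (∀ x ∈ Metric.ball 0 1, 0 < u₀ x) ∧
      ∃ lam : ℝ, 0 < lam ∧ lam < firstEigenvalue (Metric.ball 0 1) c ∧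
        Continuous u ∧ IsSolution (Metric.ball 0 1) lam c (fun _ => 1) h u ∧
        ∀ x ∈ Metric.ball 0 1, u x < 0 := by
  set h : E2 → ℝ := fun x => 24 - 144 * ‖x‖ ^ 2 with hh
  have hhc : Continuous h := by simp only [hh]; fun_prop
  have hcm : MemLp cfun ∞ (volume.restrict disc) := memLp_of_continuousOn cfun_continuousOn _
  have hhm : MemLp h ∞ (volume.restrict disc) := memLp_of_continuousOn hhc.continuousOn _
  -- u₀
  set q₀ : ℝ → ℝ := fun _ => 6 with hq₀
  set q₁ : ℝ → ℝ := fun s => -(3 + 4 * s - 2 * s ^ 2) with hq₁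
  have s0 : IsSolution disc 0 cfun (fun _ => 1) h (rad fun s => (1 - s) * q₀ s) := by
    refine isSolution_of_identity (q := q₀) (q' := fun _ => 0) (q'' := fun _ => 0)
      (by simp only [hq₀]; exact contDiff_const)
      (fun s => hasDerivAt_const s (6 : ℝ)) (fun s => hasDerivAt_const s (0 : ℝ)) continuous_const 0
      hcm hhm fun x _ => ?_
    simp only [hq₀, hh]
    ring
  have s1 : IsSolution disc 1 cfun (fun _ => 1) h (rad fun s => (1 - s) * q₁ s) := by
    refine isSolution_of_identity (q' := fun s => -(4 - 4 * s)) (q'' := fun _ => 4)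
      (by simp only [hq₁]; fun_prop) ?_ ?_ continuous_const 1 hcm hhm fun x hx => ?_
    · intro s
      have h1 := hasDerivAt_id s
      have h2 : HasDerivAt q₁ (-(0 + 4 * 1 - 2 * (2 * s ^ 1 * 1))) s :=
        ((((hasDerivAt_const s (3 : ℝ)).add (h1.const_mul 4)).sub ((h1.pow 2).const_mul 2))).neg
      refine h2.congr_deriv ?_
      ring
    · intro s
      have h1 := hasDerivAt_id s
      have h2 : HasDerivAt (fun s : ℝ => -(4 - 4 * s)) (-(0 - 4 * 1)) s :=
        ((hasDerivAt_const s (4 : ℝ)).sub (h1.const_mul 4)).neg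
      refine h2.congr_deriv ?_
      ring
    · have hs := normSq_mem hx
      unfold cfun cc
      simp only [hq₁, hh]
      set s := ‖x‖ ^ 2
      have hq : qq s ≠ 0 := (qq_pos hs.1 hs.2.le).ne'
      have e : 1 * (4 * T4 s / qq s) * ((1 - s) * -(3 + 4 * s - 2 * s ^ 2)) =
          -(4 * T4 s * (1 - s)) := by
        have : (3 + 4 * s - 2 * s ^ 2) = qq s := rfl
        rw [this]; field_simp
      rw [e]
      unfold T4
      ring
  have hpos0 : ∀ x ∈ disc, 0 < (rad fun s => (1 - s) * q₀ s) x := by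
    intro x hx
    have hs := normSq_mem hx
    simp only [rad, hq₀]
    have : 0 < 1 - ‖x‖ ^ 2 := by linarith [hs.2]
    positivity
  have hneg : ∀ x ∈ disc, (rad fun s => (1 - s) * q₁ s) x < 0 := by
    intro x hx
    have hs := normSq_mem hx
    have hq : 0 < 3 + 4 * ‖x‖ ^ 2 - 2 * (‖x‖ ^ 2) ^ 2 := qq_pos hs.1 hs.2.le
    simp only [rad, hq₁]
    have h2 : 0 < 1 - ‖x‖ ^ 2 := by linarith [hs.2]
    have := mul_pos h2 hq
    linarith
  have hc0 : Continuous (rad fun s => (1 - s) * q₀ s) := continuous_rad (by fun_prop)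
  have hc1 : Continuous (rad fun s => (1 - s) * q₁ s) := continuous_rad (by fun_prop)
  refine ⟨cfun, h, _, _, cfun_continuousOn, fun x hx => cfun_pos hx, hhc.continuousOn,
    hc0, s0, hpos0, 1, one_pos, ?_, hc1, s1, hneg⟩
  -- 1 < γ₁
  have hlb : (21 / 20 : ℝ) ≤ firstEigenvalue disc cfun := by
    unfold firstEigenvalue
    refine le_csInf ?_ ?_
    · obtain ⟨G, hG, -⟩ := s0.weak
      refine ⟨_, _, G, hG, ?_, rfl⟩
      have hint : Integrable (fun x => cfun x * (rad fun s => (1 - s) * q₀ s) x ^ 2)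
          (volume.restrict disc) := by
        have hcc : ContinuousOn (fun x => cfun x * (rad fun s => (1 - s) * q₀ s) x ^ 2)
            (Metric.closedBall 0 1) := cfun_continuousOn.mul (hc0.pow 2).continuousOn
        exact memLp_one_iff_integrable.1 (memLp_of_continuousOn hcc 1)
      rw [setIntegral_pos_iff_support_of_nonneg_ae _ hint]
      · have hsub : disc ⊆ Function.support (fun x => cfun x *
            (rad fun s => (1 - s) * q₀ s) x ^ 2) ∩ disc := by
          intro x hx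
          refine ⟨?_, hx⟩
          rw [Function.mem_support]
          exact (mul_pos (cfun_pos hx) (pow_pos (hpos0 x hx) 2)).ne'
        exact lt_of_lt_of_le (Metric.measure_ball_pos _ _ one_pos) (measure_mono hsub)
      · refine ae_restrict_of_forall_mem measurableSet_ball fun x hx => ?_
        have := cfun_pos hx
        simp only [Pi.zero_apply]
        positivity
    · rintro γ ⟨v, H, hv, hpos, rfl⟩
      rw [le_div_iff₀ hpos]
      exact energy_H10 hv
  exact lt_of_lt_of_le (by norm_num) hlb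

end Pool.Agent.Results.MP_ac8703_an.NegativeSolution
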